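import Pool.Agent.MTF.StmtsB
import Pool.Agent.Helper97_MTD.Bas

/-! MTF, module LVD: the Hodge numbers are the numbers of forms of given level. -/

set_option autoImplicit false

namespace Pool.Agent.MTF.H76

open Matrix Polynomial Pool.Agent.MT100 Pool.Agent.MT100G Pool.Agent.MT100A Pool.Agent.MT100D
  Pool.Agent.Helper78_MT Pool.Agent.Helper46_MT

/-- the fundamental matrix is invertible at all large integers -/
theorem det_ev {d : Type} [Fintype d] [DecidableEq d] (F : Family d) :
    ∃ n0 : ℕ, ∀ n : ℕ, n0 ≤ n → IsUnit (F.Y (n : ℂ)).det := by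
  obtain ⟨R, hR⟩ := MT100D.H97.bas d F
  obtain ⟨n0, hn0⟩ := exists_nat_gt (R + 1)
  refine ⟨n0, fun n hn => ?_⟩
  have h1 : R + 1 < n := lt_of_lt_of_le hn0 (by exact_mod_cast hn)
  have h2 : Metric.ball (n : ℂ) 1 ⊆ {w : ℂ | R < w.re} := by
    intro w hw
    rw [Metric.mem_ball, dist_eq_norm] at hw
    have h3 : |(w - n).re| ≤ ‖w - n‖ := Complex.abs_re_le_norm _
    have h4 : (w - n).re = w.re - n := by simp
    rw [h4] at h3
    have h5 := abs_le.mp (h3.trans hw.le)
    change R < w.re
    linarith [h5.1]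
  exact (hR.sol n 1 one_pos h2).det n (Metric.mem_ball_self one_pos)

/-- the dimension of a step of the filtration -/
theorem finrank_fil {d : Type} [Fintype d] [DecidableEq d] (F : Family d) (lev : d → ℕ)
    (P : Matrix d d ℂ) (hP : IsUnit P.det) (w : ℂ) (hY : IsUnit (F.Y w).det)
    (V : ℕ → Submodule ℂ (d → ℂ)) (hV : F.HasFil lev P w V) (p : ℕ) :
    Module.finrank ℂ (⨆ p' ∈ Set.Ici p, V p' : Submodule ℂ (d → ℂ)) =
      Fintype.card {a // p ≤ lev a} := by
  have hli : LinearIndependent ℂ (fun a => F.per P w a) := by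
    have h1 : IsUnit (F.Y w * Pᵀ) := by
      rw [Matrix.isUnit_iff_isUnit_det, Matrix.det_mul, Matrix.det_transpose]
      exact hY.mul hP
    have h2 := Matrix.linearIndependent_rows_iff_isUnit.mpr h1
    have h3 : (fun a => F.per P w a) = (F.Y w * Pᵀ).row := by
      funext a j
      simp only [Family.per, Matrix.mulVec, dotProduct, Matrix.row, Matrix.mul_apply,
        Matrix.transpose_apply]
      exact Finset.sum_congr rfl fun k _ => mul_comm _ _
    rw [h3]
    exact h2
  have hset : {y : d → ℂ | ∃ a : d, p ≤ lev a ∧ y = F.per P w a} =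
      Set.range (fun a : {a // p ≤ lev a} => F.per P w a.1) := by
    ext y
    constructor
    · rintro ⟨a, ha, rfl⟩
      exact ⟨⟨a, ha⟩, rfl⟩
    · rintro ⟨a, rfl⟩
      exact ⟨a.1, a.2, rfl⟩
  rw [hV p, hset]
  exact finrank_span_eq_card (hli.comp _ Subtype.val_injective)

/-- LVD -/
theorem lvd : LvdStmt := by
  intro d _ _ F w lev P hP
  obtain ⟨n0, hn0⟩ := det_ev F
  refine ⟨n0, fun n hn E V hH hV p => ?_⟩
  have h1 := finrank_fil F lev P hP n (hn0 n hn) V hV p
  have h2 := finrank_fil F lev P hP n (hn0 n hn) V hV (p + 1)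
  have hsup : (⨆ p' ∈ Set.Ici p, V p' : Submodule ℂ (d → ℂ)) =
      V p ⊔ (⨆ p' ∈ Set.Ici (p + 1), V p' : Submodule ℂ (d → ℂ)) := by
    apply le_antisymm
    · refine iSup₂_le fun q hq => ?_
      rcases eq_or_lt_of_le (Set.mem_Ici.mp hq) with h | h
      · rw [← h]
        exact le_sup_left
      · exact le_sup_of_le_right (le_iSup₂_of_le q (Set.mem_Ici.mpr h) le_rfl)
    · refine sup_le (le_iSup₂_of_le p (Set.mem_Ici.mpr le_rfl) le_rfl) ?_
      refine iSup₂_le fun q hq => ?_
      exact le_iSup₂_of_le q (Set.mem_Ici.mpr ((Nat.le_succ p).trans (Set.mem_Ici.mp hq))) le_rfl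
  have hdis : Disjoint (V p) (⨆ p' ∈ Set.Ici (p + 1), V p' : Submodule ℂ (d → ℂ)) := by
    refine (hH.indep p).mono_right ?_
    refine iSup₂_le fun q hq => ?_
    have hne : q ≠ p := by
      have := Set.mem_Ici.mp hq
      omega
    exact le_iSup₂_of_le q hne le_rfl
  have hfr := Submodule.finrank_sup_add_finrank_inf_eq (V p)
    (⨆ p' ∈ Set.Ici (p + 1), V p' : Submodule ℂ (d → ℂ))
  rw [hdis.eq_bot, finrank_bot, ← hsup, h1, h2] at hfr
  have hcard : Fintype.card {a // p ≤ lev a} =
      Fintype.card {a // lev a = p} + Fintype.card {a // p + 1 ≤ lev a} := by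
    rw [← Fintype.card_subtype_or_disjoint]
    · refine Fintype.card_congr (Equiv.subtypeEquivRight fun a => ?_)
      omega
    · rw [Pi.disjoint_iff]
      intro a
      rw [Prop.disjoint_iff]
      omega
  omega

end Pool.Agent.MTF.H76
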